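import Mathlib
import Pool.Agent.H735G.Defs
import Pool.Agent.H710R2.DP.Tasks
import Pool.Agent.H917R2.Tr.Stubs

/-!
ROOM GEN, block 5: reduction of S04147 to `II1Z`.  Exact statements of the sub-tasks.
Everything happens inside `B(H)`; `z` is a central projection of `M`.
-/

set_option autoImplicit false

open scoped ComplexOrder InnerProductSpace Topology
open Filter

noncomputable section

namespace Pool.Agent.H518R3.RD

open H759R2.Kad H710R2.DP H917R2.Tr Pool.Agent.H735G Pool.Agent.H467F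

section defs

variable {H : Type} [NormedAddCommGroup H] [InnerProductSpace ℂ H] [CompleteSpace H]

/-- Double commutant. -/
def cc (S : Set (H →L[ℂ] H)) : Set (H →L[ℂ] H) := Set.centralizer (Set.centralizer S)

/-- `z M` is generated by two self-adjoint operators `A`, `B` (and `z`). -/
def Gen (M : VonNeumannAlgebra H) (z : H →L[ℂ] H) : Prop :=
  ∃ A B : H →L[ℂ] H, A ∈ M ∧ B ∈ M ∧ star A = A ∧ star B = B ∧ z * A = A ∧ z * B = B ∧
    ∀ x ∈ M, z * x ∈ cc ({A, B, z} : Set (H →L[ℂ] H))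

/-- `z M` is finite. -/
def FinZ (M : VonNeumannAlgebra H) (z : H →L[ℂ] H) : Prop :=
  ∀ v ∈ M, z * v = v → star v * v = z → v * star v = z

/-- Almost matrix units with sum `z`: the ranges of `V i` are orthogonal with sum `z`, all `V i`,
`i ≥ 1`, have initial projection `r`, and `V 0` has an initial projection below `r`. -/
structure AMU (M : VonNeumannAlgebra H) (z r : H →L[ℂ] H) (V : ℕ → (H →L[ℂ] H)) : Prop where
  pr : IsPr r
  mem : ∀ i, V i ∈ M
  pi : ∀ i, IsPI (V i)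
  ort : ∀ i j, i ≠ j → star (V i) * V j = 0
  ini : ∀ i, star (V (i + 1)) * V (i + 1) = r
  zero : V 0 * r = V 0
  le : ∀ i, z * V i = V i
  sum : ∀ y : H →L[ℂ] H, (∀ i, y * V i = 0) → y * z = 0

/-- Corner algebra data: `N` is `z M` as a von Neumann algebra on the Hilbert space `K ≅ z H`. -/
structure Cor (M : VonNeumannAlgebra H) (z : H →L[ℂ] H) {K : Type} [NormedAddCommGroup K]
    [InnerProductSpace ℂ K] [CompleteSpace K] (ι : K →L[ℂ] H) (N : VonNeumannAlgebra K) : Prop where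
  isom : (ContinuousLinearMap.adjoint ι) ∘L ι = 1
  rng : ι ∘L (ContinuousLinearMap.adjoint ι) = z
  down : ∀ x ∈ M, (ContinuousLinearMap.adjoint ι) ∘L x ∘L ι ∈ N
  up : ∀ y ∈ N, ι ∘L y ∘L (ContinuousLinearMap.adjoint ι) ∈ M

end defs

/-- CG. Every nonempty set of operators is generated by a sequence of its elements. -/
def R_CG : Prop :=
  ∀ (H : Type) [NormedAddCommGroup H] [InnerProductSpace ℂ H] [CompleteSpace H]
    [TopologicalSpace.SeparableSpace H] (S : Set (H →L[ℂ] H)), S.Nonempty →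
    ∃ y : ℕ → (H →L[ℂ] H), (∀ k, y k ∈ S) ∧ ∀ x ∈ S, x ∈ cc (Set.range y)

/-- SPB. Separated blocks: an operator commuting with `∑ 4^{-i} a_i` commutes with all the
`e_i` and `a_i`. -/
def R_SPB : Prop :=
  ∀ (H : Type) [NormedAddCommGroup H] [InnerProductSpace ℂ H] [CompleteSpace H]
    (e a : ℕ → (H →L[ℂ] H)) (A : H →L[ℂ] H), (∀ i, IsPr (e i)) → (∀ i j, i ≠ j → e i * e j = 0) →
    (∀ i, star (a i) = a i ∧ e i * a i = a i ∧ ‖a i‖ ≤ 1) →
    (∀ i, ∀ ξ : H, e i ξ = ξ → 1 / 2 * ‖ξ‖ ≤ ‖a i ξ‖) →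
    HasSum (fun i => ((1 / 4 : ℂ) ^ i) • a i) A →
    ∀ s : H →L[ℂ] H, s * A = A * s → ∀ i, s * e i = e i * s ∧ s * a i = a i * s

/-- INF. Infinite almost matrix units. -/
def R_INF : Prop :=
  ∀ (H : Type) [NormedAddCommGroup H] [InnerProductSpace ℂ H] [CompleteSpace H]
    [TopologicalSpace.SeparableSpace H] (M : VonNeumannAlgebra H) (z r : H →L[ℂ] H)
    (V : ℕ → (H →L[ℂ] H)), IsCP M z → AMU M z r V → Gen M z

/-- PRJ. A sequence of commuting projections is generated by one self-adjoint operator. -/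
def R_PRJ : Prop :=
  ∀ (H : Type) [NormedAddCommGroup H] [InnerProductSpace ℂ H] [CompleteSpace H]
    (p : ℕ → (H →L[ℂ] H)), (∀ n, IsPr (p n)) → (∀ m n, p m * p n = p n * p m) →
    ∃ h : H →L[ℂ] H, star h = h ∧ ‖h‖ ≤ 1 ∧ h ∈ cc (Set.range p) ∧ ∀ n, p n ∈ cc {h}

/-- BIN. Binary expansion of a positive contraction in projections of its double commutant. -/
def R_BIN : Prop :=
  ∀ (H : Type) [NormedAddCommGroup H] [InnerProductSpace ℂ H] [CompleteSpace H]
    (x : H →L[ℂ] H), 0 ≤ x → ‖x‖ ≤ 1 →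
    ∃ p : ℕ → (H →L[ℂ] H), (∀ n, IsPr (p n) ∧ p n ∈ cc {x}) ∧ x ∈ cc (Set.range p)

/-- COM. A sequence of commuting self-adjoint contractions is generated by one self-adjoint. -/
def R_COM : Prop :=
  ∀ (H : Type) [NormedAddCommGroup H] [InnerProductSpace ℂ H] [CompleteSpace H]
    (y : ℕ → (H →L[ℂ] H)), (∀ n, star (y n) = y n ∧ ‖y n‖ ≤ 1) →
    (∀ m n, y m * y n = y n * y m) →
    ∃ h : H →L[ℂ] H, star h = h ∧ ‖h‖ ≤ 1 ∧ h ∈ cc (Set.range y) ∧ ∀ n, y n ∈ cc {h}

/-- ABG. The corner of an abelian projection is generated by one self-adjoint operator. -/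
def R_ABG : Prop :=
  ∀ (H : Type) [NormedAddCommGroup H] [InnerProductSpace ℂ H] [CompleteSpace H]
    [TopologicalSpace.SeparableSpace H] (M : VonNeumannAlgebra H) (e : H →L[ℂ] H), e ∈ M →
    IsPr e → IsAb M e →
    ∃ h ∈ M, star h = h ∧ ‖h‖ ≤ 1 ∧ e * h = h ∧ ∀ x ∈ M, e * x * e ∈ cc ({h, e} : Set (H →L[ℂ] H))

/-- MAT. Finite matrix units over a corner generated by one self-adjoint operator. -/
def R_MAT : Prop :=
  ∀ (H : Type) [NormedAddCommGroup H] [InnerProductSpace ℂ H] [CompleteSpace H]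
    (M : VonNeumannAlgebra H) (z e h : H →L[ℂ] H) (n : ℕ) (V : Fin (n + 1) → (H →L[ℂ] H)),
    IsCP M z → IsPr e → e ∈ M → (∀ i, V i ∈ M ∧ star (V i) * V i = e) →
    (∀ i j, i ≠ j → star (V i) * V j = 0) → (∑ i, V i * star (V i) = z) →
    h ∈ M → star h = h → ‖h‖ ≤ 1 → e * h = h →
    (∀ x ∈ M, e * x * e ∈ cc ({h, e} : Set (H →L[ℂ] H))) → Gen M z

/-- FINI. Infinitely many orthogonal copies of a nonzero projection contradict finiteness. -/
def R_FINI : Prop :=
  ∀ (H : Type) [NormedAddCommGroup H] [InnerProductSpace ℂ H] [CompleteSpace H]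
    (M : VonNeumannAlgebra H) (z r : H →L[ℂ] H) (W : ℕ → (H →L[ℂ] H)), IsCP M z → FinZ M z →
    IsPr r → (∀ i, W i ∈ M ∧ z * W i = W i ∧ star (W i) * W i = r) →
    (∀ i j, i ≠ j → star (W i) * W j = 0) → r = 0

/-- AB. Below a finite central projection with a nonzero abelian subprojection. -/
def R_AB : Prop :=
  ∀ (H : Type) [NormedAddCommGroup H] [InnerProductSpace ℂ H] [CompleteSpace H]
    [TopologicalSpace.SeparableSpace H] (M : VonNeumannAlgebra H) (z : H →L[ℂ] H), IsCP M z →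
    FinZ M z → ∀ e ∈ M, IsPr e → z * e = e → IsAb M e → e ≠ 0 →
    ∃ g, IsCP M g ∧ g ≠ 0 ∧ z * g = g ∧ Gen M g

/-- MAX. A sequence of orthogonal copies of `r ≠ 0` can be enlarged to a maximal one. -/
def R_MAX : Prop :=
  ∀ (H : Type) [NormedAddCommGroup H] [InnerProductSpace ℂ H] [CompleteSpace H]
    [TopologicalSpace.SeparableSpace H] (M : VonNeumannAlgebra H) (z r : H →L[ℂ] H)
    (W : ℕ → (H →L[ℂ] H)), IsCP M z → IsPr r → r ≠ 0 →
    (∀ i, W i ∈ M ∧ z * W i = W i ∧ star (W i) * W i = r) →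
    (∀ i j, i ≠ j → star (W i) * W j = 0) →
    ∃ W' : ℕ → (H →L[ℂ] H), (∀ i, W' i ∈ M ∧ z * W' i = W' i ∧ star (W' i) * W' i = r) ∧
      (∀ i j, i ≠ j → star (W' i) * W' j = 0) ∧
      ∀ U ∈ M, z * U = U → star U * U = r → ∃ i, star (W' i) * U ≠ 0

/-- AMU. A maximal sequence gives almost matrix units of a nonzero central piece. -/
def R_AMU : Prop :=
  ∀ (H : Type) [NormedAddCommGroup H] [InnerProductSpace ℂ H] [CompleteSpace H]
    (M : VonNeumannAlgebra H) (z r : H →L[ℂ] H)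
    (W : ℕ → (H →L[ℂ] H)), IsCP M z → IsPr r → r ≠ 0 →
    (∀ i, W i ∈ M ∧ z * W i = W i ∧ star (W i) * W i = r) →
    (∀ i j, i ≠ j → star (W i) * W j = 0) →
    (∀ U ∈ M, z * U = U → star U * U = r → ∃ i, star (W i) * U ≠ 0) →
    ∃ (g r' : H →L[ℂ] H) (V : ℕ → (H →L[ℂ] H)), IsCP M g ∧ g ≠ 0 ∧ z * g = g ∧ AMU M g r' V

/-- NF. Below a central projection which is not finite. -/
def R_NF : Prop :=
  ∀ (H : Type) [NormedAddCommGroup H] [InnerProductSpace ℂ H] [CompleteSpace H]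
    [TopologicalSpace.SeparableSpace H] (M : VonNeumannAlgebra H) (z : H →L[ℂ] H), IsCP M z →
    ¬ FinZ M z → ∃ g, IsCP M g ∧ g ≠ 0 ∧ z * g = g ∧ Gen M g

/-- COR. Existence of the corner algebra. -/
def R_COR : Prop :=
  ∀ (H : Type) [NormedAddCommGroup H] [InnerProductSpace ℂ H] [CompleteSpace H]
    (M : VonNeumannAlgebra H) (z : H →L[ℂ] H), IsCP M z →
    ∃ (K : Type) (_ : NormedAddCommGroup K) (_ : InnerProductSpace ℂ K) (_ : CompleteSpace K)
      (ι : K →L[ℂ] H) (N : VonNeumannAlgebra K), Cor M z ι N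

/-- CORA. Properties of the corner: separability, nontriviality. -/
def R_CORA : Prop :=
  ∀ (H : Type) [NormedAddCommGroup H] [InnerProductSpace ℂ H] [CompleteSpace H]
    (M : VonNeumannAlgebra H) (z : H →L[ℂ] H) (K : Type) [NormedAddCommGroup K]
    [InnerProductSpace ℂ K] [CompleteSpace K] (ι : K →L[ℂ] H) (N : VonNeumannAlgebra K),
    IsCP M z → Cor M z ι N →
    (TopologicalSpace.SeparableSpace H → TopologicalSpace.SeparableSpace K) ∧
    (z ≠ 0 → Nontrivial K) ∧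
    (FinZ M z → ∀ v ∈ N, star v * v = 1 → v * star v = 1)

/-- CORB. The corner of a piece without abelian projections has no abelian projections. -/
def R_CORB : Prop :=
  ∀ (H : Type) [NormedAddCommGroup H] [InnerProductSpace ℂ H] [CompleteSpace H]
    (M : VonNeumannAlgebra H) (z : H →L[ℂ] H) (K : Type) [NormedAddCommGroup K]
    [InnerProductSpace ℂ K] [CompleteSpace K] (ι : K →L[ℂ] H) (N : VonNeumannAlgebra K),
    IsCP M z → Cor M z ι N → NoAb M z → NoAb N 1

/-- CORC. One generator of the corner algebra gives `Gen M z`. -/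
def R_CORC : Prop :=
  ∀ (H : Type) [NormedAddCommGroup H] [InnerProductSpace ℂ H] [CompleteSpace H]
    (M : VonNeumannAlgebra H) (z : H →L[ℂ] H) (K : Type) [NormedAddCommGroup K]
    [InnerProductSpace ℂ K] [CompleteSpace K] (ι : K →L[ℂ] H) (N : VonNeumannAlgebra K),
    IsCP M z → Cor M z ι N →
    (∃ T : K →L[ℂ] K, (N : Set (K →L[ℂ] K)) =
      Set.centralizer (Set.centralizer ({T, star T} : Set (K →L[ℂ] K)))) → Gen M z

/-- TRA. The trace of `TR_main` in the form used by `II1Z`. -/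
def R_TRA : Prop :=
  TR_main → ∀ (H : Type) [NormedAddCommGroup H] [InnerProductSpace ℂ H] [CompleteSpace H]
    [TopologicalSpace.SeparableSpace H] [Nontrivial H] (M : VonNeumannAlgebra H),
    (∀ v ∈ M, star v * v = 1 → v * star v = 1) →
    ∃ t : Elt M → ℂ, IsFaithfulTrace t ∧ IsNormalPositive M t

/-- FB. The finite piece without abelian projections (uses COR CORA CORB CORC TRA). -/
def R_FB : Prop :=
  II1Z → TR_main → ∀ (H : Type) [NormedAddCommGroup H] [InnerProductSpace ℂ H] [CompleteSpace H]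
    [TopologicalSpace.SeparableSpace H] (M : VonNeumannAlgebra H) (z : H →L[ℂ] H), IsCP M z →
    z ≠ 0 → FinZ M z → NoAb M z → Gen M z

/-- LOC. Every nonzero central projection dominates a nonzero one with `Gen`. -/
def R_LOC : Prop :=
  II1Z → TR_main → ∀ (H : Type) [NormedAddCommGroup H] [InnerProductSpace ℂ H] [CompleteSpace H]
    [TopologicalSpace.SeparableSpace H] (M : VonNeumannAlgebra H) (z : H →L[ℂ] H), IsCP M z →
    z ≠ 0 → ∃ g, IsCP M g ∧ g ≠ 0 ∧ z * g = g ∧ Gen M g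

/-- SEQ. Countable central partition into pieces with `Gen`, indexed by `ℕ` (zeros allowed). -/
def R_SEQ : Prop :=
  ∀ (H : Type) [NormedAddCommGroup H] [InnerProductSpace ℂ H] [CompleteSpace H]
    [TopologicalSpace.SeparableSpace H] (M : VonNeumannAlgebra H),
    (∀ z, IsCP M z → z ≠ 0 → ∃ g, IsCP M g ∧ g ≠ 0 ∧ z * g = g ∧ Gen M g) →
    ∃ g : ℕ → (H →L[ℂ] H), (∀ n, IsCP M (g n) ∧ Gen M (g n)) ∧ (∀ m n, m ≠ n → g m * g n = 0) ∧
      ∀ y : H →L[ℂ] H, (∀ n, y * g n = 0) → y = 0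

/-- GLUE. A central partition into pieces with `Gen` gives one generator. -/
def R_GLUE : Prop :=
  ∀ (H : Type) [NormedAddCommGroup H] [InnerProductSpace ℂ H] [CompleteSpace H]
    (M : VonNeumannAlgebra H) (g : ℕ → (H →L[ℂ] H)), (∀ n, IsCP M (g n) ∧ Gen M (g n)) →
    (∀ m n, m ≠ n → g m * g n = 0) → (∀ y : H →L[ℂ] H, (∀ n, y * g n = 0) → y = 0) →
    ∃ T : H →L[ℂ] H, (M : Set (H →L[ℂ] H)) =
      Set.centralizer (Set.centralizer ({T, star T} : Set (H →L[ℂ] H)))

/-- Assembly. -/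
theorem reduction (hTR : TR_main) (hL : R_LOC) (hS : R_SEQ) (hG : R_GLUE) : ReductionThm := by
  intro h1 H _ _ _ _ M
  obtain ⟨g, h2, h3, h4⟩ := hS H M fun z hz hz0 => hL h1 hTR H M z hz hz0
  exact hG H M g h2 h3 h4

end Pool.Agent.H518R3.RD
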