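import Mathlib
import Pool.Agent.H518R3.RD.Defs

/-!
ROOM GEN, block 5: assembly of the reduction.
-/

set_option autoImplicit false

open scoped ComplexOrder InnerProductSpace Topology
open Filter

noncomputable section

namespace Pool.Agent.H518R3.RD.Asm

open H759R2.Kad H710R2.DP H917R2.Tr Pool.Agent.H735G Pool.Agent.H467F Pool.Agent.H518R3.RD

theorem r_TRA : R_TRA := by
  intro hTR H _ _ _ _ _ M hM
  obtain ⟨ξ, h1, h2, h3, h4⟩ := hTR H M hM
  refine ⟨fun x => vf ξ (x : H →L[ℂ] H), ⟨?_, ?_, ?_⟩, ξ, h1, ?_⟩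
  · simpa using h2
  · intro x y
    exact h3 x x.2 y y.2
  · intro x hx
    have := h4 x x.2 (by simpa using hx)
    exact Subtype.ext this
  · intro x
    rfl

theorem r_FB (hC : R_COR) (hA : R_CORA) (hB : R_CORB) (hCC : R_CORC) : R_FB := by
  intro h1 hTR H _ _ _ _ M z hz hz0 hf hn
  obtain ⟨K, i1, i2, i3, ι, N, hcor⟩ := hC H M z hz
  obtain ⟨s1, s2, s3⟩ := hA H M z K ι N hz hcor
  haveI := s1 inferInstance
  haveI := s2 hz0
  have h5 := hB H M z K ι N hz hcor hn
  have h6 := r_TRA hTR K N (s3 hf)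
  exact hCC H M z K ι N hz hcor (h1 K N h5 h6)

theorem r_LOC (hFB : R_FB) (hNF : R_NF) (hAB : R_AB) : R_LOC := by
  intro h1 hTR H _ _ _ _ M z hz hz0
  by_cases hf : FinZ M z
  · by_cases hn : NoAb M z
    · exact ⟨z, hz, hz0, hz.1.2, hFB h1 hTR H M z hz hz0 hf hn⟩
    · unfold NoAb at hn
      push Not at hn
      obtain ⟨e, he, hp, hze, hab, he0⟩ := hn
      exact hAB H M z hz hf e he hp hze hab he0
  · exact hNF H M z hz hf

end Pool.Agent.H518R3.RD.Asm
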